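import Pool.Agent.H91.KP.Cond
import Pool.Agent.H91.KP.Kill
import Pool.Agent.H91.KP.Pc
import Pool.Agent.H91.KP.Tame
import Pool.Graph.R_seed8.H97R3.Nontriv

/-!
# An element of a diagram group killed by all homomorphisms to Kopell groups

The element found in the earlier runs (library modules `H97R3`, `Y72/Ko`, there for `PL₊([0,1])` and
for the homeomorphisms of `[0,1]` of Denjoy's class `P`) is killed by every homomorphism to every
group of automorphisms of a conditionally complete linear order with the Kopell property (if `h` and
`w` commute, `h p < p` and `w p = p`, then `w` fixes all points between `h p` and `p`). Two kinds of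
such groups are given: the groups whose elements have tame sets of fixed points, and the group
`HalfP` of the increasing homeomorphisms of the half-open interval `[0,1)` which are of class `P` on
all compact subintervals; it contains all piecewise `C²` homeomorphisms of `[0,1)`, with infinitely
many break points allowed to accumulate at `1`, so in particular all `C²` diffeomorphisms of `[0,1)`.
-/

set_option autoImplicit false

namespace Pool.Agent.Results.MP_215185_al.KopellGroups

open Pool.Agent.H97R3.Diag Pool.Agent.H97R3.PLm Pool.Agent.Y72.Ko Pool.Agent.H91.KP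

/-- every homomorphism from `G` to `H` maps `x` to `1` -/
def Killed {G : Type} [Group G] (x : G) (H : Type) [Group H] : Prop :=
  ∀ φ : G →* H, φ x = 1

/-- `x` is killed by all homomorphisms to the groups listed in the main theorem -/
def KilledByAll {G : Type} [Group G] (x : G) : Prop :=
  (∀ (X : Type) [LinearOrder X] (𝒢 : Subgroup (X ≃o X)), CentProp 𝒢 → Killed x 𝒢) ∧
  (∀ (X : Type) [ConditionallyCompleteLinearOrder X] (𝒢 : Subgroup (X ≃o X)),
    Kopell 𝒢 → Killed x 𝒢) ∧
  (∀ (X : Type) [ConditionallyCompleteLinearOrder X] (𝒢 : Subgroup (X ≃o X)),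
    Tame 𝒢 → Killed x 𝒢) ∧
  Killed x HalfP ∧ Killed x PLplus ∧ ∀ H : Subgroup PLplus, Killed x H

/-- There are a finite semigroup presentation `P`, a nonempty word `w` and a nontrivial element `x`
of the diagram group `D(P, w)` such that `x` is mapped to `1` by every homomorphism from `D(P, w)` to

1. a group of automorphisms of any linear order with the centralizer property (an element commuting
   with `U` and `V` fixes the points moved by the commutator of `U` and `V`);
2. a group of automorphisms of a conditionally complete linear order with the Kopell property;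
3. a tame group of automorphisms of a conditionally complete linear order;
4. the group `HalfP` of the increasing homeomorphisms of `[0,1)` of class `P` on all `[0,c]`, `c < 1`;
5. the group `PL₊([0,1])`, or one of its subgroups, for example Thompson's group `F`.

The group `HalfP` contains the piecewise `C²` homeomorphisms of `[0,1)`, the group of the
homeomorphisms of `[0,1]` of class `P`, and `PL₊([0,1])`. A group is tame if the set of the fixed
points of each of its elements is a union of finitely many convex sets. -/
theorem result :
    (∃ (S : Type) (P : Pres S) (w : List S), Finite S ∧ P.rels.Finite ∧ w ≠ [] ∧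
      ∃ x : DiagramGroup P w, x ≠ 1 ∧ KilledByAll x) ∧
    (∀ f : unitInterval ≃o unitInterval, HalfPC2 f → f ∈ HalfP) ∧
    PP ≤ HalfP ∧
    (∀ f ∈ PLplus, ∃ g ∈ HalfP, ∀ x, g x = f x) ∧
    (∀ (X : Type) [LinearOrder X] (𝒢 : Subgroup (X ≃o X)), FiniteFix 𝒢 → Tame 𝒢) := by
  have hPP : PP ≤ HalfP := fun f hf => mem_halfP fun c _ => ⟨f, hf, fun x _ => rfl⟩
  refine ⟨⟨Pool.Agent.H97R3.Example.L, Pool.Agent.H97R3.Example.PP,
    Pool.Agent.H97R3.Example.w0, inferInstance, ?_, by decide, _,
    Pool.Agent.H97R3.Example.word_ne, ?_, ?_, ?_, ?_, ?_, ?_⟩, fun f hf => halfPC2_mem hf,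
    hPP, fun f hf => ?_, fun X _ 𝒢 T => tame_of_finite T⟩
  · exact List.finite_toSet _
  · intro X _ 𝒢 K φ
    exact Pool.Agent.H91.KP.killed K Pool.Agent.H97R3.Example.isConfig φ
  · intro X _ 𝒢 K φ
    exact Pool.Agent.H91.KP.killed K.centProp' Pool.Agent.H97R3.Example.isConfig φ
  · intro X _ 𝒢 T φ
    exact Pool.Agent.H91.KP.killed T.kopell.centProp' Pool.Agent.H97R3.Example.isConfig φ
  · intro φ
    exact Pool.Agent.H91.KP.killed kopell_halfP.centProp Pool.Agent.H97R3.Example.isConfig φ
  · exact fun φ => Pool.Agent.H97R3.Config.killed Pool.Agent.H97R3.Example.isConfig φ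
  · intro H φ
    have h := Pool.Agent.H97R3.Config.killed Pool.Agent.H97R3.Example.isConfig
      (H.subtype.comp φ)
    exact Subtype.ext h
  · obtain ⟨g, hg, h⟩ := plplus_mem hf
    exact ⟨g, hPP hg, h⟩

end Pool.Agent.Results.MP_215185_al.KopellGroups
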